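import Pool.Agent.W97.KE.Stm

/-!
# A global element with the same action as a local element at `l`
-/

set_option autoImplicit false

namespace Pool.Agent.W428.KE

open Pool.Agent.W97.KE

/-- A primitive `p`-th root of unity in `ℚ_l` when `p ∣ l - 1`. -/
theorem exists_prim (p l : ℕ) [Fact l.Prime] (hp : p.Prime) (hpl : p ≠ l) (hd : p ∣ l - 1) :
    ∃ z : ℤ_[l], IsPrimitiveRoot z p := by
  have hl : l.Prime := Fact.out
  have : Fact p.Prime := ⟨hp⟩
  have hcard : Fintype.card (ZMod l)ˣ = l - 1 := ZMod.card_units l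
  obtain ⟨a, ha⟩ := exists_prime_orderOf_dvd_card p (G := (ZMod l)ˣ) (hcard ▸ hd)
  have hcop : (p : ZMod l) ≠ 0 := by
    intro h
    rw [ZMod.natCast_eq_zero_iff] at h
    exact hpl ((Nat.prime_dvd_prime_iff_eq hl hp).1 h).symm
  set b : ℤ_[l] := (((a : ZMod l).val : ℕ) : ℤ_[l]) with hb
  have hbmod : PadicInt.toZMod b = (a : ZMod l) := by
    rw [hb, map_natCast, ZMod.natCast_zmod_val]
  have hnorm : ∀ x : ℤ_[l], ‖x‖ < 1 ↔ PadicInt.toZMod x = 0 := by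
    intro x
    rw [← RingHom.mem_ker, PadicInt.ker_toZMod, PadicInt.maximalIdeal_eq_span_p,
      Ideal.mem_span_singleton, PadicInt.norm_lt_one_iff_dvd]
  set F : Polynomial ℤ_[l] := Polynomial.X ^ p - 1 with hF
  have hFa : ∀ x : ℤ_[l], F.aeval x = x ^ p - 1 := by
    intro x
    rw [hF]
    simp
  have hFd : ∀ x : ℤ_[l], F.derivative.aeval x = p * x ^ (p - 1) := by
    intro x
    rw [hF]
    simp [Polynomial.derivative_X_pow]
  have hpa : (a : ZMod l) ^ p = 1 := by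
    rw [← Units.val_pow_eq_pow_val, ← ha, pow_orderOf_eq_one]
    rfl
  have h1 : ‖F.aeval b‖ < 1 := by
    rw [hnorm, hFa, map_sub, map_pow, hbmod, hpa, map_one, sub_self]
  have h2 : ‖F.derivative.aeval b‖ = 1 := by
    rcases lt_or_eq_of_le (PadicInt.norm_le_one (F.derivative.aeval b)) with h3 | h3
    · exfalso
      rw [hnorm, hFd, map_mul, map_pow, hbmod, map_natCast] at h3
      rcases mul_eq_zero.1 h3 with h4 | h4
      · exact hcop h4
      · exact (a.isUnit.pow (p - 1)).ne_zero h4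
    · exact h3
  obtain ⟨z, hz, hz2, -⟩ := hensels_lemma (F := F) (a := b) (by rw [h2, one_pow]; exact h1)
  rw [h2] at hz2
  rw [hFa] at hz
  have hzp : z ^ p = 1 := sub_eq_zero.1 hz
  have hz1 : z ≠ 1 := by
    rintro rfl
    have h3 : ‖(1 : ℤ_[l]) - b‖ < 1 := hz2
    rw [hnorm, map_sub, map_one, hbmod, sub_eq_zero] at h3
    have h4 : a = 1 := Units.ext h3.symm
    rw [h4, orderOf_one] at ha
    exact hp.one_lt.ne ha
  have h5 := IsPrimitiveRoot.orderOf z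
  rw [orderOf_eq_prime hzp hz1] at h5
  exact ⟨z, h5⟩

/-- No element of order `p ^ 2` in `ℚ_l` when `p ^ 2` does not divide `l - 1`. -/
theorem no_prim (p l : ℕ) [Fact l.Prime] (hp : p.Prime) (hpl : p ≠ l)
    (hd2 : ¬ p ^ 2 ∣ l - 1) (z : ℚ_[l]) (hz : z ^ p ^ 2 = 1) : z ^ p = 1 := by
  have hl : l.Prime := Fact.out
  have hp2 : p ^ 2 ≠ 0 := pow_ne_zero _ hp.ne_zero
  have hz1 : ‖z‖ = 1 := by
    have h1 : ‖z‖ ^ p ^ 2 = 1 := by rw [← norm_pow, hz, norm_one]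
    exact (pow_eq_one_iff_of_nonneg (norm_nonneg _) hp2).1 h1
  set x : ℤ_[l] := ⟨z, hz1.le⟩ with hx
  have hxz : (x : ℚ_[l]) = z := rfl
  have hxp : x ^ p ^ 2 = 1 := by
    apply Subtype.ext
    rw [PadicInt.coe_pow, hxz, hz]
    rfl
  have hnorm : ∀ x : ℤ_[l], ‖x‖ < 1 ↔ PadicInt.toZMod x = 0 := by
    intro x
    rw [← RingHom.mem_ker, PadicInt.ker_toZMod, PadicInt.maximalIdeal_eq_span_p,
      Ideal.mem_span_singleton, PadicInt.norm_lt_one_iff_dvd]
  have hr : (PadicInt.toZMod x) ^ p ^ 2 = 1 := by rw [← map_pow, hxp, map_one]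
  have hr0 : PadicInt.toZMod x ≠ 0 := by
    intro h
    rw [h, zero_pow hp2] at hr
    exact zero_ne_one hr
  have hr2 : (PadicInt.toZMod x) ^ (l - 1) = 1 := ZMod.pow_card_sub_one_eq_one hr0
  have ho1 : orderOf (PadicInt.toZMod x) ∣ p ^ 2 := orderOf_dvd_of_pow_eq_one hr
  have ho2 : orderOf (PadicInt.toZMod x) ∣ l - 1 := orderOf_dvd_of_pow_eq_one hr2
  have ho3 : orderOf (PadicInt.toZMod x) ∣ p := by
    obtain ⟨k, hk, hk2⟩ := (Nat.dvd_prime_pow hp).1 ho1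
    have : k ≤ 1 := by
      by_contra h
      have : k = 2 := by omega
      subst this
      exact hd2 (hk2 ▸ ho2)
    rw [hk2]
    calc p ^ k ∣ p ^ 1 := pow_dvd_pow _ this
      _ = p := pow_one p
  have hr3 : PadicInt.toZMod x ^ p = 1 := orderOf_dvd_iff_pow_eq_one.1 ho3
  have hw : (x ^ p) ^ p = 1 := by
    rw [← pow_mul, ← sq, hxp]
  have hw1 : x ^ p = 1 := by
    by_contra hne
    have h1 : x ^ p - 1 ∣ (p : ℤ_[l]) := sub_one_dvd_natCast_of_pow_eq_one hw hne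
    have h2 : ‖x ^ p - 1‖ < 1 := by
      rw [hnorm, map_sub, map_pow, hr3, map_one, sub_self]
    rw [PadicInt.norm_lt_one_iff_dvd] at h2
    have h3 : ((l : ℕ) : ℤ_[l]) ∣ (p : ℤ_[l]) := h2.trans h1
    rw [← PadicInt.norm_lt_one_iff_dvd, hnorm, map_natCast, ZMod.natCast_eq_zero_iff] at h3
    exact hpl ((Nat.prime_dvd_prime_iff_eq hl hp).1 h3).symm
  rw [← hxz, ← PadicInt.coe_pow, hw1]
  rfl

/-- A primitive root of unity in an algebraically closed field of characteristic zero. -/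
theorem exists_primitive (F : Type) [Field F] [IsAlgClosed F] [CharZero F] (n : ℕ) (hn : n ≠ 0) :
    ∃ z : F, IsPrimitiveRoot z n := by
  have : NeZero (n : F) := ⟨by exact_mod_cast hn⟩
  obtain ⟨z, hz⟩ := IsAlgClosed.exists_root (Polynomial.cyclotomic n F) (by
    rw [Polynomial.degree_cyclotomic]
    have := Nat.totient_pos.2 (Nat.pos_of_ne_zero hn)
    exact_mod_cast this.ne')
  exact ⟨z, Polynomial.isRoot_cyclotomic_iff.1 hz⟩

theorem isAlgebraic_Qb : Algebra.IsAlgebraic ℚ Qb := AlgebraicClosure.isAlgebraic ℚ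

theorem normal_Qb : Normal ℚ Qb := by
  have := isAlgebraic_Qb
  have : IsAlgClosure ℚ Qb := ⟨inferInstance, inferInstance⟩
  exact IsAlgClosure.normal ℚ Qb

/-- Restriction of an automorphism to `ℚ̄`. -/
theorem exists_restrict {Ω : Type} [Field Ω] [CharZero Ω] (ι : Qb →+* Ω) (τ : Ω ≃+* Ω) :
    ∃ g : GQ, ∀ x, ι (g x) = τ (ι x) := by
  have := normal_Qb
  let : Algebra Qb Ω := ι.toAlgebra
  let : Algebra ℚ Ω := DivisionRing.toRatAlgebra
  have : IsScalarTower ℚ Qb Ω := IsScalarTower.of_algebraMap_eq' (Subsingleton.elim _ _)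
  let χ : Ω ≃ₐ[ℚ] Ω := AlgEquiv.ofRingEquiv (f := τ) (fun q => by
    rw [eq_ratCast, map_ratCast])
  exact ⟨χ.restrictNormal Qb, fun x => χ.restrictNormal_commutes Qb x⟩

theorem sameCyc_of {p : ℕ} (hp : p.Prime) {k Ω : Type} [Field k] [Field Ω] [Algebra k Ω]
    (ι : Qb →+* Ω) (g : GQ) (τ : Ω ≃ₐ[k] Ω) (h : ∀ x, ι (g x) = τ (ι x)) : SameCyc p g τ := by
  intro n
  have hM : p ^ (n + 1) ≠ 0 := pow_ne_zero _ hp.ne_zero
  have : NeZero (p ^ (n + 1)) := ⟨hM⟩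
  obtain ⟨ζ, hζ⟩ := exists_primitive Qb (p ^ (n + 1)) hM
  have hgζ : (g ζ) ^ p ^ (n + 1) = 1 := by
    rw [← map_pow, hζ.pow_eq_one, map_one]
  obtain ⟨u, -, hu⟩ := hζ.eq_pow_of_pow_eq_one hgζ
  have hιζ : IsPrimitiveRoot (ι ζ) (p ^ (n + 1)) := hζ.map_of_injective ι.injective
  refine ⟨u, ?_, ?_⟩
  · intro z hz
    obtain ⟨i, -, rfl⟩ := hζ.eq_pow_of_pow_eq_one hz
    rw [map_pow, ← hu, ← pow_mul, ← pow_mul, mul_comm]
  · intro z hz
    obtain ⟨i, -, rfl⟩ := hιζ.eq_pow_of_pow_eq_one hz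
    rw [map_pow, ← h, ← hu, map_pow, ← pow_mul, ← pow_mul, mul_comm]

theorem s_frob : S_FROB := by
  intro p l _ hp hpl hd hd2
  set Ω := AlgebraicClosure ℚ_[l] with hΩ
  have : CharZero Ω := charZero_of_injective_algebraMap (algebraMap ℚ_[l] Ω).injective
  let : Algebra ℚ Ω := DivisionRing.toRatAlgebra
  have := isAlgebraic_Qb
  let ι : Qb →+* Ω := (IsAlgClosed.lift (R := ℚ) (S := Qb) (M := Ω) : Qb →ₐ[ℚ] Ω).toRingHom
  have hp2 : p ^ 2 ≠ 0 := pow_ne_zero _ hp.ne_zero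
  have : NeZero p := ⟨hp.ne_zero⟩
  obtain ⟨ζ, hζ⟩ := exists_primitive Qb (p ^ 2) hp2
  have hιζ : IsPrimitiveRoot (ι ζ) (p ^ 2) := hζ.map_of_injective ι.injective
  have hnot : ι ζ ∉ (⊥ : IntermediateField ℚ_[l] Ω) := by
    intro h
    rw [IntermediateField.mem_bot] at h
    obtain ⟨z, hz⟩ := h
    have h1 : z ^ p ^ 2 = 1 := by
      apply (algebraMap ℚ_[l] Ω).injective
      rw [map_pow, hz, hιζ.pow_eq_one, map_one]
    have h2 := no_prim p l hp hpl hd2 z h1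
    have h3 : (ι ζ) ^ p = 1 := by
      rw [← hz, ← map_pow, h2, map_one]
    have h4 := hιζ.dvd_of_pow_eq_one p h3
    have h5 := Nat.le_of_dvd hp.pos h4
    have h6 := hp.one_lt
    nlinarith
  rw [InfiniteGalois.mem_bot_iff_fixed] at hnot
  push Not at hnot
  obtain ⟨τ, hτ⟩ := hnot
  obtain ⟨g, hg⟩ := exists_restrict ι τ.toRingEquiv
  have hg' : ∀ x, ι (g x) = τ (ι x) := hg
  refine ⟨g, τ, sameCyc_of hp ι g τ hg', ?_, ζ, hζ.pow_eq_one, ?_⟩
  · intro z hz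
    apply ι.injective
    rw [hg']
    obtain ⟨w, hw⟩ := exists_prim p l hp hpl hd
    have hw1 : IsPrimitiveRoot ((w : ℚ_[l])) p :=
      hw.map_of_injective (f := PadicInt.Coe.ringHom) (fun a b h => Subtype.ext h)
    have hw2 : IsPrimitiveRoot (algebraMap ℚ_[l] Ω (w : ℚ_[l])) p :=
      hw1.map_of_injective (algebraMap ℚ_[l] Ω).injective
    have h1 : (ι z) ^ p = 1 := by rw [← map_pow, hz, map_one]
    obtain ⟨i, -, hi⟩ := hw2.eq_pow_of_pow_eq_one h1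
    rw [← hi, map_pow, τ.commutes]
  · intro h
    apply hτ
    rw [← hg', h]

end Pool.Agent.W428.KE
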